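import Mathlib

namespace Pool.Agent.Results.MP_be8152_al.NoBernstein

section
variable {k V : Type} [Field k] [AddCommGroup V] [Module k V]

/-- 4-algebras -/
def FourAlg (μ : V →ₗ[k] V →ₗ[k] V) : Prop :=
  (∀ x y, μ x y = μ y x) ∧ ∀ x, μ (μ x x) (μ x x) = 0

/-- Bernstein operators -/
def Bernstein (μ : V →ₗ[k] V →ₗ[k] V) (Ω : V →ₗ[k] V) : Prop :=
  Ω ∘ₗ Ω = Ω ∧ (∀ x, μ (μ x x) (Ω x) = 0) ∧ ∀ x, μ (Ω x) (Ω x) + Ω (μ x x) = μ x x
end

/-- A 4-algebra structure on k^7 without any Bernstein operator. -/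
theorem result (k : Type) [Field k] (h2 : (2 : k) ≠ 0) :
    ∃ μ : (Fin 7 → k) →ₗ[k] (Fin 7 → k) →ₗ[k] (Fin 7 → k), FourAlg μ ∧ ¬ ∃ Ω, Bernstein μ Ω := by
  unfold FourAlg Bernstein
  simp only [and_assoc]
  let μ : (Fin 7 → k) →ₗ[k] (Fin 7 → k) →ₗ[k] (Fin 7 → k) := LinearMap.mk₂ k
    (fun x y => ![0, 0, x 0 * y 0, x 0 * y 1 + x 1 * y 0, x 1 * y 1,
      x 3 * y 3 - 2 * (x 2 * y 4 + x 4 * y 2), x 0 * y 2 + x 2 * y 0])
    (by intros; ext i; fin_cases i <;> simp <;> ring) (by intros; ext i; fin_cases i <;> simp <;> ring)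
    (by intros; ext i; fin_cases i <;> simp <;> ring) (by intros; ext i; fin_cases i <;> simp <;> ring)
  have hμ : ∀ x y, μ x y = ![0, 0, x 0 * y 0, x 0 * y 1 + x 1 * y 0, x 1 * y 1,
      x 3 * y 3 - 2 * (x 2 * y 4 + x 4 * y 2), x 0 * y 2 + x 2 * y 0] := fun _ _ => rfl
  have hc : ∀ x y, μ x y = μ y x := fun x y => by ext i; fin_cases i <;> simp [hμ] <;> ring
  refine ⟨μ, hc, fun x => by ext i; fin_cases i <;> simp [hμ]; ring, ?_⟩
  rintro ⟨Ω, -, h3, h4⟩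
  have h5 : ∀ x y, Ω (μ x y) = μ x y - μ (Ω x) (Ω y) := fun x y => by
    apply smul_right_injective _ h2
    have a1 := h4 (x + y)
    simp only [map_add, LinearMap.add_apply, hc y x, hc (Ω y) (Ω x)] at a1
    simp only
    linear_combination (norm := module) a1 - h4 x - h4 y
  let e : Fin 7 → Fin 7 → k := fun i => Pi.single i 1
  have m : ∀ (i j l : Fin 7) (c : k), (∀ t, μ (e i) (e j) t = (c • e l) t) →
      ∀ t, c * Ω (e l) t = (c • e l) t - μ (Ω (e i)) (Ω (e j)) t := fun i j l c h t => by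
    have := congrFun (h5 (e i) (e j)) t
    rwa [funext h, map_smul] at this
  have hp := m 0 0 2 1 (fun t => by fin_cases t <;> simp [hμ, e])
  have hq := m 0 1 3 1 (fun t => by fin_cases t <;> simp [hμ, e])
  have hr := m 1 1 4 1 (fun t => by fin_cases t <;> simp [hμ, e])
  have hw := m 3 3 5 1 (fun t => by fin_cases t <;> simp [hμ, e]) 5
  have hw' := m 2 4 5 (-2) (fun t => by fin_cases t <;> simp [hμ, e]) 5
  have hpp := m 2 2 5 0 (fun t => by fin_cases t <;> simp [hμ, e]) 5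
  have a0 := congrFun (h3 (e 0)) 6
  have c0 := congrFun (h3 (e 0 + e 1)) 6
  have b0 := congrFun (h3 (e 0)) 5
  have b1 := congrFun (h3 (e 0 + e 4)) 5
  have p2 := hp 2
  have p3 := hp 3
  have p4 := hp 4
  have q2 := hq 2
  have q3 := hq 3
  have q4 := hq 4
  have r2 := hr 2
  have r3 := hr 3
  have r4 := hr 4
  simp only [map_add Ω] at c0 b1
  generalize Ω (e 0) = X, Ω (e 1) = Y, Ω (e 2) = P, Ω (e 3) = Q, Ω (e 4) = R, Ω (e 5) = W at *
  simp [hμ, e, h2] at a0 c0 b0 b1 p2 p3 p4 q2 q3 q4 r2 r3 r4 hw hw' hpp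
  have c1 : Y 0 = 0 := by linear_combination c0 - a0
  simp [a0, c1] at p2 p3 q2 q3 r2 r3
  have b2 : R 4 = 0 := by linear_combination b1 - b0
  have b3 : P 4 = 0 := by
    apply mul_left_cancel₀ (mul_ne_zero h2 h2)
    rw [p2, p3] at hpp
    linear_combination -hpp
  rw [p2, p3, r2, r3, b2, b3] at hw'
  rw [q2, q3] at hw
  apply h2
  linear_combination hw' + 2 * hw

end Pool.Agent.Results.MP_be8152_al.NoBernstein
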